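import Pool.Agent.R877.Flat.Cplx

set_option autoImplicit false

open scoped BigOperators

namespace Pool.Agent.R877.Flat

/-- linear maps normalizing `Γ` -/
structure Good (V : W ≃ₗ[ℝ] W) : Prop where
  rot : ∀ g x, V (rot g x) = rot g (V x)
  cond : ∀ g v, Cond 1 g v → Cond 1 g (V v)

theorem Good.rel {V : W ≃ₗ[ℝ] W} (hV : Good V) {x y : W} (h : orbitRel Gam x y) :
    orbitRel Gam (V x) (V y) := by
  obtain ⟨_, ⟨g, v, hv, rfl⟩, rfl⟩ := h
  refine ⟨mov g (V v), ⟨g, V v, hV.cond g v hv, rfl⟩, ?_⟩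
  rw [mov_apply, mov_apply, map_add, hV.rot]

theorem good_U : Good U := ⟨U_rot, fun _ _ h => U_cond h⟩

theorem good_U_symm : Good U.symm := ⟨U_symm_rot, fun _ _ h => U_symm_cond h⟩

/-- iterates of a linear equivalence -/
noncomputable def iter (V : W ≃ₗ[ℝ] W) : ℕ → (W ≃ₗ[ℝ] W)
  | 0 => LinearEquiv.refl ℝ W
  | n + 1 => (iter V n).trans V

theorem iter_succ (V : W ≃ₗ[ℝ] W) (n : ℕ) (x : W) : iter V (n + 1) x = V (iter V n x) := rfl

theorem iter_add (V : W ≃ₗ[ℝ] W) (m n : ℕ) (x : W) : iter V (m + n) x = iter V m (iter V n x) := by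
  induction m with
  | zero => rw [Nat.zero_add]; rfl
  | succ m ih => rw [Nat.succ_add, iter_succ, ih, iter_succ]

theorem iter_symm_succ (V : W ≃ₗ[ℝ] W) (n : ℕ) (x : W) :
    (iter V (n + 1)).symm x = (iter V n).symm (V.symm x) := rfl

theorem good_iter (n : ℕ) : Good (iter U n) := by
  induction n with
  | zero => exact ⟨fun _ _ => rfl, fun _ _ h => h⟩
  | succ n ih =>
    refine ⟨fun g x => ?_, fun g v h => ?_⟩
    · rw [iter_succ, iter_succ, ih.rot, good_U.rot]
    · rw [iter_succ]; exact good_U.cond _ _ (ih.cond _ _ h)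

theorem good_iter_symm (n : ℕ) : Good (iter U n).symm := by
  induction n with
  | zero => exact ⟨fun _ _ => rfl, fun _ _ h => h⟩
  | succ n ih =>
    refine ⟨fun g x => ?_, fun g v h => ?_⟩
    · rw [iter_symm_succ, iter_symm_succ, good_U_symm.rot, ih.rot]
    · rw [iter_symm_succ]; exact ih.cond _ _ (good_U_symm.cond _ _ h)

theorem continuous_lin (V : W ≃ₗ[ℝ] W) : Continuous V :=
  LinearMap.continuous_of_finiteDimensional (V : W →ₗ[ℝ] W)

/-- the self-homeomorphism of `M` induced by `U ^ n` -/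
noncomputable def homeo (n : ℕ) : FlatManifold Gam ≃ₜ FlatManifold Gam where
  toFun := Quotient.map (iter U n) (fun _ _ h => (good_iter n).rel h)
  invFun := Quotient.map (iter U n).symm (fun _ _ h => (good_iter_symm n).rel h)
  left_inv := by
    rintro ⟨x⟩
    change Quotient.mk (orbitRel Gam) ((iter U n).symm (iter U n x)) = _
    rw [LinearEquiv.symm_apply_apply]
    rfl
  right_inv := by
    rintro ⟨x⟩
    change Quotient.mk (orbitRel Gam) (iter U n ((iter U n).symm x)) = _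
    rw [LinearEquiv.apply_symm_apply]
    rfl
  continuous_toFun := by
    refine continuous_quot_lift _ ?_
    exact continuous_quot_mk.comp (continuous_lin (iter U n))
  continuous_invFun := by
    refine continuous_quot_lift _ ?_
    exact continuous_quot_mk.comp (continuous_lin (iter U n).symm)

theorem homeo_proj (n : ℕ) (x : W) : homeo n (proj Gam x) = proj Gam (iter U n x) := rfl

/-- the quadratic form `∑ x_i x_{i+1}` on the last copy -/
noncomputable def S1 (x : W) : ℝ := ∑ i : ZMod 5, co x 5 i * co x 5 (i + 1)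

/-- the quadratic form `∑ x_i x_{i+2}` on the last copy -/
noncomputable def S2 (x : W) : ℝ := ∑ i : ZMod 5, co x 5 i * co x 5 (i + 2)

theorem S1_unit (x : W) : S1 (unitMap x) = 3 * S1 x + S2 x := by
  have h := co_sum x 5
  simp only [S1, S2, co_unit, if_true]
  rw [sum_five] at h ⊢
  rw [sum_five, sum_five]
  have a1 : (0 : ZMod 5) - 1 = 4 := by decide
  have a2 : (0 : ZMod 5) + 1 = 1 := by decide
  have a3 : (1 : ZMod 5) - 1 = 0 := by decide
  have a4 : (1 : ZMod 5) + 1 = 2 := by decide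
  have a5 : (2 : ZMod 5) - 1 = 1 := by decide
  have a6 : (2 : ZMod 5) + 1 = 3 := by decide
  have a7 : (3 : ZMod 5) - 1 = 2 := by decide
  have a8 : (3 : ZMod 5) + 1 = 4 := by decide
  have a9 : (4 : ZMod 5) - 1 = 3 := by decide
  have a10 : (4 : ZMod 5) + 1 = 0 := by decide
  have b1 : (0 : ZMod 5) + 2 = 2 := by decide
  have b2 : (1 : ZMod 5) + 2 = 3 := by decide
  have b3 : (2 : ZMod 5) + 2 = 4 := by decide
  have b4 : (3 : ZMod 5) + 2 = 0 := by decide
  have b5 : (4 : ZMod 5) + 2 = 1 := by decide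
  simp only [a1, a2, a3, a4, a5, a6, a7, a8, a9, a10, b1, b2, b3, b4, b5]
  ring

theorem S2_unit (x : W) : S2 (unitMap x) = - S1 x := by
  have h := co_sum x 5
  simp only [S1, S2, co_unit, if_true]
  rw [sum_five] at h ⊢
  rw [sum_five]
  have a1 : (0 : ZMod 5) - 1 = 4 := by decide
  have a2 : (0 : ZMod 5) + 1 = 1 := by decide
  have a3 : (1 : ZMod 5) - 1 = 0 := by decide
  have a4 : (1 : ZMod 5) + 1 = 2 := by decide
  have a5 : (2 : ZMod 5) - 1 = 1 := by decide
  have a6 : (2 : ZMod 5) + 1 = 3 := by decide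
  have a7 : (3 : ZMod 5) - 1 = 2 := by decide
  have a8 : (3 : ZMod 5) + 1 = 4 := by decide
  have a9 : (4 : ZMod 5) - 1 = 3 := by decide
  have a10 : (4 : ZMod 5) + 1 = 0 := by decide
  have b1 : (0 : ZMod 5) + 2 = 2 := by decide
  have b2 : (1 : ZMod 5) + 2 = 3 := by decide
  have b3 : (2 : ZMod 5) + 2 = 4 := by decide
  have b4 : (3 : ZMod 5) + 2 = 0 := by decide
  have b5 : (4 : ZMod 5) + 2 = 1 := by decide
  simp only [a1, a2, a3, a4, a5, a6, a7, a8, a9, a10, b1, b2, b3, b4, b5]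
  linear_combination (co x 5 0 + co x 5 1 + co x 5 2 + co x 5 3 + co x 5 4) * h

/-- the cone on which the unit expands -/
def Cone (x : W) : Prop := S1 x < 0 ∧ 0 ≤ S2 x ∧ S1 x ≤ - S2 x

theorem Cone.unit {x : W} (h : Cone x) : Cone (unitMap x) ∧ S1 (unitMap x) < S1 x := by
  obtain ⟨h1, h2, h3⟩ := h
  refine ⟨⟨?_, ?_, ?_⟩, ?_⟩
  · rw [S1_unit]; linarith
  · rw [S2_unit]; linarith
  · rw [S1_unit, S2_unit]; linarith
  · rw [S1_unit]; linarith

theorem Cone.applyU {x : W} (h : Cone x) : Cone (U x) ∧ S1 (U x) < S1 x := by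
  rw [U_apply]
  obtain ⟨c1, d1⟩ := h.unit
  obtain ⟨c2, d2⟩ := c1.unit
  obtain ⟨c3, d3⟩ := c2.unit
  obtain ⟨c4, d4⟩ := c3.unit
  exact ⟨c4, by linarith⟩

theorem Cone.iterU {x : W} (h : Cone x) (n : ℕ) : Cone (iter U (n + 1) x) ∧
    S1 (iter U (n + 1) x) < S1 x := by
  induction n with
  | zero => exact h.applyU
  | succ n ih =>
    rw [iter_succ]
    obtain ⟨c, d⟩ := ih.1.applyU
    exact ⟨c, d.trans ih.2⟩

theorem S1_smul (c : ℝ) (x : W) : S1 (c • x) = c ^ 2 * S1 x := by
  simp only [S1, co_smul, Finset.mul_sum]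
  refine Finset.sum_congr rfl fun i _ => ?_
  ring

theorem S2_smul (c : ℝ) (x : W) : S2 (c • x) = c ^ 2 * S2 x := by
  simp only [S2, co_smul, Finset.mul_sum]
  refine Finset.sum_congr rfl fun i _ => ?_
  ring

theorem Cone.smul {x : W} (h : Cone x) {c : ℝ} (hc : 0 < c) : Cone (c • x) := by
  obtain ⟨h1, h2, h3⟩ := h
  have hc2 : 0 < c ^ 2 := by positivity
  refine ⟨?_, ?_, ?_⟩
  · rw [S1_smul]; nlinarith
  · rw [S2_smul]; positivity
  · rw [S1_smul, S2_smul]; nlinarith

theorem S1_rot (g : G5) (x : W) : S1 (rot g x) = S1 x := by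
  simp only [S1, co_rot]
  rw [← sum_shift (fun i => co x 5 i * co x 5 (i + 1)) (chi 5 g)]
  refine Finset.sum_congr rfl fun i _ => ?_
  have : i + 1 - chi 5 g = i - chi 5 g + 1 := by ring
  rw [this]

theorem S1_congr {x y : W} (h : ∀ i, co x 5 i = co y 5 i) : S1 x = S1 y := by
  simp only [S1, h]

/-- the vector `e_0 - e_1` in the last copy -/
noncomputable def w1 : W :=
  mkW (fun k i => if k = 5 then (if i = 0 then 1 else if i = 1 then -1 else 0) else 0) (by
    intro k
    by_cases hk : k = 5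
    · simp only [hk, if_true]
      rw [sum_five]
      simp [show ¬ (1 : ZMod 5) = 0 by decide, show ¬ (2 : ZMod 5) = 0 by decide,
        show ¬ (3 : ZMod 5) = 0 by decide, show ¬ (4 : ZMod 5) = 0 by decide,
        show ¬ (2 : ZMod 5) = 1 by decide, show ¬ (3 : ZMod 5) = 1 by decide,
        show ¬ (4 : ZMod 5) = 1 by decide]
    · simp only [hk, if_false]; simp)

theorem w1_cone : Cone w1 := by
  have e : ∀ i : ZMod 5, co w1 5 i = if i = 0 then 1 else if i = 1 then -1 else 0 := by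
    intro i; simp [w1]
  have h1 : S1 w1 = -1 := by
    simp only [S1, e]
    rw [sum_five]
    have b2 : (1 : ZMod 5) + 1 = 2 := by decide
    have b3 : (2 : ZMod 5) + 1 = 3 := by decide
    have b4 : (3 : ZMod 5) + 1 = 4 := by decide
    have b5 : (4 : ZMod 5) + 1 = 0 := by decide
    simp [b2, b3, b4, b5, show ¬ (1 : ZMod 5) = 0 by decide, show ¬ (2 : ZMod 5) = 0 by decide,
        show ¬ (3 : ZMod 5) = 0 by decide, show ¬ (4 : ZMod 5) = 0 by decide,
        show ¬ (2 : ZMod 5) = 1 by decide, show ¬ (3 : ZMod 5) = 1 by decide,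
        show ¬ (4 : ZMod 5) = 1 by decide]
  have h2 : S2 w1 = 0 := by
    simp only [S2, e]
    rw [sum_five]
    have b2 : (1 : ZMod 5) + 2 = 3 := by decide
    simp [b2, show ¬ (1 : ZMod 5) = 0 by decide, show ¬ (2 : ZMod 5) = 0 by decide,
        show ¬ (3 : ZMod 5) = 0 by decide, show ¬ (4 : ZMod 5) = 0 by decide,
        show ¬ (2 : ZMod 5) = 1 by decide, show ¬ (3 : ZMod 5) = 1 by decide,
        show ¬ (4 : ZMod 5) = 1 by decide]
  refine ⟨?_, ?_, ?_⟩
  · rw [h1]; norm_num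
  · rw [h2]
  · rw [h1, h2]; norm_num

/-- no iterate of `U` induces the identity on `M` -/
theorem not_rel (n : ℕ) : ∃ w : W, ¬ orbitRel Gam w (iter U (n + 1) w) := by
  set B : ℝ := ‖iter U (n + 1) w1‖ + ‖w1‖ + 1 with hB
  have hBpos : 0 < B := by positivity
  refine ⟨(1 / (5 * B)) • w1, ?_⟩
  rintro ⟨_, ⟨g, v, hv, rfl⟩, h⟩
  set ε : ℝ := 1 / (5 * B) with hε
  have hεpos : 0 < ε := by positivity
  have hv2 : v = ε • (iter U (n + 1) w1) - ε • rot g w1 := by
    rw [mov_apply, map_smul, map_smul] at h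
    rw [← h]; simp
  have hv3 : ‖v‖ < 1 / 5 := by
    calc ‖v‖ = ‖ε • (iter U (n + 1) w1) - ε • rot g w1‖ := by rw [← hv2]
      _ ≤ ‖ε • (iter U (n + 1) w1)‖ + ‖ε • rot g w1‖ := norm_sub_le _ _
      _ = ε * (‖iter U (n + 1) w1‖ + ‖w1‖) := by
        rw [norm_smul, norm_smul, LinearIsometryEquiv.norm_map, Real.norm_of_nonneg hεpos.le]
        ring
      _ < ε * B := by
        apply mul_lt_mul_of_pos_left _ hεpos
        rw [hB]; linarith
      _ = 1 / 5 := by rw [hε]; field_simp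
  have hv4 : ∀ k i, co v k i = 0 := by
    intro k i
    obtain ⟨z, hz, -⟩ := hv k i
    have h1 := abs_co_le v k i
    have h2 : |(z : ℝ)| < 1 := by
      rw [← hz, abs_mul]
      have h5 : |(5 : ℝ)| = 5 := by norm_num
      rw [h5]; linarith
    have h3 : z = 0 := by
      have : |z| < 1 := by exact_mod_cast h2
      exact Int.abs_lt_one_iff.1 this
    rw [h3] at hz
    simpa using hz
  have hv5 : v = 0 := co_ext hv4
  rw [mov_apply, hv5, zero_add] at h
  have h6 := (w1_cone.smul hεpos).iterU n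
  rw [← h, S1_rot] at h6
  exact lt_irrefl _ h6.2

theorem homeo_injective : Function.Injective homeo := by
  have key : ∀ m n : ℕ, m < n → homeo m ≠ homeo n := by
    intro m n hmn h
    obtain ⟨d, rfl⟩ : ∃ d, n = d + 1 + m := ⟨n - m - 1, by omega⟩
    obtain ⟨w, hw⟩ := not_rel d
    apply hw
    have h1 := DFunLike.congr_fun h (proj Gam ((iter U m).symm w))
    rw [homeo_proj, homeo_proj, iter_add, LinearEquiv.apply_symm_apply] at h1
    exact Quotient.exact h1
  intro m n h
  rcases lt_trichotomy m n with h1 | h1 | h1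
  · exact absurd h (key m n h1)
  · exact h1
  · exact absurd h.symm (key n m h1)

theorem J_iter {J : W →ₗ[ℝ] W} (hJ : IsComplexStructure Gam J) (n : ℕ) (x : W) :
    J (iter U n x) = iter U n (J x) := by
  induction n with
  | zero => rfl
  | succ n ih => rw [iter_succ, iter_succ, J_U hJ, ih]

theorem aut_infinite (J : W →ₗ[ℝ] W) (hJ : IsComplexStructure Gam J) : (AutMJ Gam J).Infinite := by
  refine Set.infinite_of_injective_forall_mem homeo_injective fun n => ?_
  refine ⟨(iter U n).toAffineEquiv, fun x => homeo_proj n x, fun v => ?_⟩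
  exact (J_iter hJ n v).symm

end Pool.Agent.R877.Flat
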