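import Pool.Agent.R877.Flat.Model

set_option autoImplicit false

open scoped BigOperators

namespace Pool.Agent.R877.Flat

instance : FiniteDimensional ℝ W := inferInstance

theorem mov_pow (g : G5) (v : W) (hv : Cond 1 g v) (k : ℕ) :
    ∃ w, mov g v ^ k = mov (k • g) w ∧ Cond 1 (k • g) w ∧
      ∀ K, chi K g = 0 → ∀ i, co w K i = k * co v K i := by
  induction k with
  | zero =>
    refine ⟨0, ?_, ?_, ?_⟩
    · rw [pow_zero, zero_smul]
      ext1 x
      change x = 0 + rot 0 x
      rw [rot_zero, zero_add]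
    · rw [zero_smul]; exact Cond.zero 1
    · intro K _ i; simp
  | succ k ih =>
    obtain ⟨w, h1, h2, h3⟩ := ih
    refine ⟨v + rot g w, ?_, ?_, ?_⟩
    · rw [pow_succ', h1, mov_mul, succ_nsmul']
    · rw [succ_nsmul']; exact hv.add_rot h2
    · intro K hK i
      rw [co_add, co_rot, hK, sub_zero, h3 K hK]
      push_cast; ring

theorem Gam_torsionFree : ∀ γ ∈ Gam, ∀ k : ℕ, 0 < k → γ ^ k = 1 → γ = 1 := by
  rintro _ ⟨g, v, hv, rfl⟩ k hk h
  obtain ⟨w, h1, -, h3⟩ := mov_pow g v hv k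
  rw [h] at h1
  have hw : w = 0 := by
    have := DFunLike.congr_fun h1 (0 : W)
    simp only [mov_apply, map_zero, add_zero] at this
    exact this.symm
  have hk' : (k : ℝ) ≠ 0 := by exact_mod_cast hk.ne'
  have h4 : ∀ K, chi K g = 0 → ∀ i, co v K i = 0 := by
    intro K hK i
    have := h3 K hK i
    rw [hw, co_zero] at this
    rcases mul_eq_zero.1 this.symm with h5 | h5
    · exact absurd h5 hk'
    · exact h5
  have hg : g = 0 := by
    by_contra hg
    obtain ⟨K, hK, hK'⟩ := exists_fixed g hg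
    obtain ⟨z, hz, hz'⟩ := hv K 0
    rw [h4 K hK, mul_zero] at hz
    have : z = 0 := by exact_mod_cast hz.symm
    rw [this] at hz'
    simp at hz'
    exact hK' hz'.symm
  subst hg
  have hv0 : v = 0 := co_ext fun K i => h4 K (chi_zero K) i
  subst hv0
  ext1 x
  change 0 + rot 0 x = x
  rw [rot_zero, zero_add]

theorem Gam_cocompact : ∃ K : Set W, IsCompact K ∧ ∀ x : W, ∃ γ ∈ Gam, γ x ∈ K := by
  refine ⟨Metric.closedBall 0 (∑ _k : Fin 6, ∑ _i : ZMod 5, 4), isCompact_closedBall _ _, ?_⟩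
  intro x
  have hf : ∀ k : Fin 6, ∑ i : ZMod 5, (if i = 0 then ((round (co x k 1) + round (co x k 2) +
      round (co x k 3) + round (co x k 4) : ℤ) : ℝ) else -(round (co x k i) : ℝ)) = 0 := by
    intro k
    rw [sum_five]
    have h1 : ¬ (1 : ZMod 5) = 0 := by decide
    have h2 : ¬ (2 : ZMod 5) = 0 := by decide
    have h3 : ¬ (3 : ZMod 5) = 0 := by decide
    have h4 : ¬ (4 : ZMod 5) = 0 := by decide
    simp only [h1, h2, h3, h4, if_true, if_false]
    push_cast
    ring
  set v : W := mkW _ hf with hvdef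
  refine ⟨mov 0 v, ⟨0, v, ?_, rfl⟩, ?_⟩
  · intro k i
    have h5 : (5 : ZMod 5) = 0 := by decide
    by_cases hi : i = 0
    · refine ⟨5 * (round (co x k 1) + round (co x k 2) +
        round (co x k 3) + round (co x k 4)), ?_, ?_⟩
      · simp only [hvdef, co_mkW, hi, if_true]
        push_cast; ring
      · push_cast; rw [h5]; simp [psi_zero]
    · refine ⟨5 * (-round (co x k i)), ?_, ?_⟩
      · simp only [hvdef, co_mkW, hi, if_false]
        push_cast; ring
      · push_cast; rw [h5]; simp [psi_zero]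
  · rw [mem_closedBall_zero_iff]
    have hb : ∀ k i, |co (mov 0 v x) k i| ≤ 2 := by
      intro k i
      rw [mov_apply, rot_zero, co_add]
      have hr : ∀ t : ℝ, |t - round t| ≤ 1 / 2 := fun t => abs_sub_round t
      by_cases hi : i = 0
      · have hs := co_sum x k
        rw [sum_five] at hs
        simp only [hvdef, co_mkW, hi, if_true]
        push_cast
        have e1 := abs_le.1 (hr (co x k 1))
        have e2 := abs_le.1 (hr (co x k 2))
        have e3 := abs_le.1 (hr (co x k 3))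
        have e4 := abs_le.1 (hr (co x k 4))
        rw [abs_le]
        constructor <;> linarith [e1.1, e1.2, e2.1, e2.2, e3.1, e3.2, e4.1, e4.2]
      · simp only [hvdef, co_mkW, hi, if_false]
        have := hr (co x k i)
        rw [abs_le] at this ⊢
        constructor <;> linarith [this.1, this.2]
    have hsq : ‖mov 0 v x‖ ^ 2 ≤ ∑ _k : Fin 6, ∑ _i : ZMod 5, (4 : ℝ) := by
      rw [norm_sq_eq]
      refine Finset.sum_le_sum fun k _ => Finset.sum_le_sum fun i _ => ?_
      have := hb k i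
      have h0 := abs_nonneg (co (mov 0 v x) k i)
      rw [← sq_abs]
      nlinarith
    have h1 : (1 : ℝ) ≤ ∑ _k : Fin 6, ∑ _i : ZMod 5, (4 : ℝ) := by
      simp only [Finset.sum_const, Finset.card_univ, Fintype.card_fin, ZMod.card, nsmul_eq_mul]
      norm_num
    nlinarith [norm_nonneg (mov 0 v x)]

theorem finite_bounded (B : ℝ) : {v : W | (∀ k i, ∃ z : ℤ, 5 * co v k i = z) ∧ ‖v‖ ≤ B}.Finite := by
  set N : ℤ := ⌈5 * B⌉ with hN
  refine Set.Finite.of_finite_image (f := fun v : W => fun (k : Fin 6) (i : ZMod 5) =>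
    round (5 * co v k i)) ?_ ?_
  · refine (Set.finite_Icc (fun (_ : Fin 6) (_ : ZMod 5) => -N)
      (fun (_ : Fin 6) (_ : ZMod 5) => N)).subset ?_
    rintro _ ⟨v, ⟨hz, hB⟩, rfl⟩
    have key : ∀ k i, |((round (5 * co v k i) : ℤ) : ℝ)| ≤ N := by
      intro k i
      obtain ⟨z, hz⟩ := hz k i
      rw [hz, round_intCast, ← hz, abs_mul]
      have := abs_co_le v k i
      have h5 : |(5 : ℝ)| = 5 := by norm_num
      rw [h5]
      calc 5 * |co v k i| ≤ 5 * B := by nlinarith
        _ ≤ N := Int.le_ceil _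
    constructor
    · intro k i
      have := (abs_le.1 (key k i)).1
      exact_mod_cast this
    · intro k i
      have := (abs_le.1 (key k i)).2
      exact_mod_cast this
  · rintro v ⟨hv, -⟩ w ⟨hw, -⟩ h
    refine co_ext fun k i => ?_
    have h1 := congr_fun (congr_fun h k) i
    obtain ⟨z, hz⟩ := hv k i
    obtain ⟨z', hz'⟩ := hw k i
    simp only [hz, hz', round_intCast] at h1
    rw [h1] at hz
    linarith

theorem Gam_discrete (K : Set W) (hK : IsCompact K) :
    {γ : W ≃ᵃⁱ[ℝ] W | γ ∈ Gam ∧ (γ '' K ∩ K).Nonempty}.Finite := by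
  obtain ⟨R, hR⟩ := hK.isBounded.exists_norm_le
  refine ((Set.finite_univ (α := G5)).biUnion (t := fun g => mov g ''
    {v : W | (∀ k i, ∃ z : ℤ, 5 * co v k i = z) ∧ ‖v‖ ≤ R + R})
    (fun g _ => (finite_bounded (R + R)).image _)).subset ?_
  rintro _ ⟨⟨g, v, hv, rfl⟩, y, ⟨x, hx, rfl⟩, hy⟩
  refine Set.mem_biUnion (Set.mem_univ g) ⟨v, ⟨fun k i => ?_, ?_⟩, rfl⟩
  · obtain ⟨z, hz, -⟩ := hv k i
    exact ⟨z, hz⟩
  · have h1 := hR _ hy
    have h2 := hR _ hx
    have h3 : v = mov g v x - rot g x := by rw [mov_apply]; simp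
    calc ‖v‖ = ‖mov g v x - rot g x‖ := by rw [← h3]
      _ ≤ ‖mov g v x‖ + ‖rot g x‖ := norm_sub_le _ _
      _ ≤ R + R := by rw [LinearIsometryEquiv.norm_map]; exact add_le_add h1 h2

theorem Gam_isBieberbach : IsBieberbach Gam where
  discrete := Gam_discrete
  cocompact := Gam_cocompact
  torsionFree := Gam_torsionFree

/-- the translation lattice -/
noncomputable def Lat : AddSubgroup W where
  carrier := {v | Cond 1 0 v}
  add_mem' := by
    intro v w hv hw
    have := hv.add_rot hw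
    rw [rot_zero, add_zero] at this
    exact this
  zero_mem' := Cond.zero 1
  neg_mem' := by
    intro v hv
    have := hv.neg_rot
    rw [neg_zero, rot_zero] at this
    exact this

theorem mem_Lat {v : W} : v ∈ Lat ↔ Cond 1 0 v := Iff.rfl

theorem Lat_rot {v : W} (g : G5) (hv : v ∈ Lat) : rot g v ∈ Lat := by
  intro k i
  obtain ⟨z, h1, h2⟩ := hv k (i - chi k g)
  exact ⟨z, h1, h2⟩

theorem sum_rot (v : W) : ∑ g : G5, rot g v = 0 := by
  refine co_ext fun k i => ?_
  rw [co_finset_sum, co_zero, Fintype.sum_prod_type]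
  by_cases hk : k = 5
  · subst hk
    rw [Finset.sum_comm]
    refine Finset.sum_eq_zero fun b _ => ?_
    have : ∀ a : ZMod 5, co (rot (a, b) v) 5 i = co v 5 (i - a) := by
      intro a; simp [chi]
    simp only [this]
    rw [sum_neg_shift (fun j => co v 5 j)]
    exact co_sum v 5
  · refine Finset.sum_eq_zero fun a _ => ?_
    have : ∀ b : ZMod 5, co (rot (a, b) v) k i = co v k ((i - (k.val : ZMod 5) * a) - b) := by
      intro b
      simp only [co_rot, chi, hk, if_false]
      congr 1; ring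
    simp only [this]
    rw [sum_neg_shift (fun j => co v k j)]
    exact co_sum v k

theorem Gam_betti : FirstBettiZero Gam := by
  intro φ
  -- the restriction to translations
  let t : Lat → Gam := fun v => ⟨mov 0 v, ⟨0, v, v.2, rfl⟩⟩
  have ht : ∀ v w : Lat, t (v + w) = t v * t w := by
    intro v w
    apply Subtype.ext
    change mov 0 ((v : W) + w) = mov 0 (v : W) * mov 0 (w : W)
    rw [mov_mul, rot_zero, add_zero]
  let a : Lat →+ ℝ := AddMonoidHom.mk' (fun v => (φ (t v)).toAdd) (fun v w => by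
    simp only [ht, map_mul, toAdd_mul])
  have ha : ∀ (g : G5) (v : Lat), a ⟨rot g v, Lat_rot g v.2⟩ = a v := by
    intro g v
    obtain ⟨s, hs⟩ := exists_cond g
    have h1 : (⟨mov g s, ⟨g, s, hs, rfl⟩⟩ : Gam) * t v =
        t ⟨rot g v, Lat_rot g v.2⟩ * ⟨mov g s, ⟨g, s, hs, rfl⟩⟩ := by
      apply Subtype.ext
      change mov g s * mov 0 (v : W) = mov 0 (rot g (v : W)) * mov g s
      rw [mov_mul, mov_mul, add_zero, zero_add, rot_zero, add_comm s]
    have h2 := congr_arg (fun x => (φ x).toAdd) h1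
    simp only [map_mul, toAdd_mul] at h2
    have h3 : (φ (t v)).toAdd = (φ (t ⟨rot g v, Lat_rot g v.2⟩)).toAdd := by linarith
    exact h3.symm
  have ha0 : ∀ v : Lat, a v = 0 := by
    intro v
    have h1 : ∑ g : G5, (⟨rot g v, Lat_rot g v.2⟩ : Lat) = 0 := by
      apply Subtype.ext
      rw [AddSubgroup.val_finsetSum]
      exact sum_rot v
    have h2 : a (∑ g : G5, (⟨rot g v, Lat_rot g v.2⟩ : Lat)) = ∑ _g : G5, a v := by
      rw [map_sum]
      exact Finset.sum_congr rfl fun g _ => ha g v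
    rw [h1, map_zero, Finset.sum_const, nsmul_eq_mul] at h2
    have h3 : ((Finset.univ : Finset G5).card : ℝ) ≠ 0 := by
      simp [Finset.card_univ]
    rcases mul_eq_zero.1 h2.symm with h4 | h4
    · exact absurd h4 h3
    · exact h4
  ext ⟨γ, hγ⟩
  obtain ⟨g, v, hv, rfl⟩ := hγ
  obtain ⟨w, h1, h2, -⟩ := mov_pow g v hv 5
  have h5 : (5 : ℕ) • g = 0 := (by decide : ∀ g : G5, (5 : ℕ) • g = 0) g
  rw [h5] at h1 h2
  have h6 : (⟨mov g v, ⟨g, v, hv, rfl⟩⟩ : Gam) ^ 5 = t ⟨w, h2⟩ := by
    apply Subtype.ext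
    exact h1
  have h7 := congr_arg (fun x => (φ x).toAdd) h6
  simp only [map_pow, toAdd_pow] at h7
  have h8 : (φ (t ⟨w, h2⟩)).toAdd = 0 := ha0 ⟨w, h2⟩
  rw [h8] at h7
  have h9 : (φ (⟨mov g v, ⟨g, v, hv, rfl⟩⟩ : Gam)).toAdd = 0 := by
    simpa using h7
  exact Multiplicative.toAdd.injective h9

end Pool.Agent.R877.Flat
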