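import Pool.Agent.R877.Flat.Bieb

set_option autoImplicit false

open scoped BigOperators

namespace Pool.Agent.R877.Flat

/-- a sum-zero function on the cyclic group of order five -/
theorem sum_around (x : W) (k : Fin 6) (i : ZMod 5) :
    co x k i + co x k (i - 1) + co x k (i - 2) + co x k (i + 1) + co x k (i + 2) = 0 := by
  have h := co_sum x k
  rw [← sum_neg_shift (fun j => co x k j) i, sum_five] at h
  have e3 : i - 3 = i + 2 := by
    have : (3 : ZMod 5) = -2 := by decide
    rw [this]; ring
  have e4 : i - 4 = i + 1 := by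
    have : (4 : ZMod 5) = -1 := by decide
    rw [this]; ring
  rw [sub_zero, e3, e4] at h
  linarith

/-- the circulant operator with weights `a, b` on `T - T⁻¹`, `T² - T⁻²` -/
noncomputable def circ (a b : ℝ) : W →ₗ[ℝ] W where
  toFun x := mkW (fun k i => a * (co x k (i - 1) - co x k (i + 1)) +
      b * (co x k (i - 2) - co x k (i + 2))) (fun k => by
    rw [Finset.sum_add_distrib, ← Finset.mul_sum, ← Finset.mul_sum, Finset.sum_sub_distrib,
      Finset.sum_sub_distrib, sum_shift (fun i => co x k i), sum_shift (fun i => co x k i),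
      sum_shift' (fun i => co x k i), sum_shift' (fun i => co x k i)]
    ring)
  map_add' x y := by apply co_ext; intro k i; simp; ring
  map_smul' c x := by apply co_ext; intro k i; simp; ring

theorem co_circ (a b : ℝ) (x : W) (k : Fin 6) (i : ZMod 5) :
    co (circ a b x) k i = a * (co x k (i - 1) - co x k (i + 1)) +
      b * (co x k (i - 2) - co x k (i + 2)) := rfl

theorem circ_sq {a b : ℝ} (h1 : a ^ 2 + 4 * a * b - b ^ 2 = 0)
    (h2 : 3 * a ^ 2 + 2 * b ^ 2 + 2 * a * b = 1) (x : W) : circ a b (circ a b x) = -x := by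
  refine co_ext fun k i => ?_
  simp only [co_circ, co_neg]
  have m3 : (3 : ZMod 5) = -2 := by decide
  have m4 : (4 : ZMod 5) = -1 := by decide
  have e1 : i - 1 - 1 = i - 2 := by ring
  have e2 : i - 1 + 1 = i := by ring
  have e3 : i - 1 - 2 = i + 2 := by linear_combination -m3
  have e4 : i - 1 + 2 = i + 1 := by ring
  have e5 : i + 1 - 1 = i := by ring
  have e6 : i + 1 + 1 = i + 2 := by ring
  have e7 : i + 1 - 2 = i - 1 := by ring
  have e8 : i + 1 + 2 = i - 2 := by linear_combination m3
  have e9 : i - 2 - 1 = i + 2 := by linear_combination -m3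
  have e10 : i - 2 + 1 = i - 1 := by ring
  have e11 : i - 2 - 2 = i + 1 := by linear_combination -m4
  have e12 : i - 2 + 2 = i := by ring
  have e13 : i + 2 - 1 = i + 1 := by ring
  have e14 : i + 2 + 1 = i - 2 := by linear_combination m3
  have e15 : i + 2 - 2 = i := by ring
  have e16 : i + 2 + 2 = i - 1 := by linear_combination m4
  simp only [e1, e2, e3, e4, e5, e6, e7, e8, e9, e10, e11, e12, e13, e14, e15, e16]
  have hs := sum_around x k i
  have h0 : co x k i = -(co x k (i - 1) + co x k (i - 2) + co x k (i + 1) + co x k (i + 2)) := by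
    linarith
  generalize co x k (i - 1) = p at *
  generalize co x k (i - 2) = q at *
  generalize co x k (i + 1) = r at *
  generalize co x k (i + 2) = s at *
  rw [h0]
  linear_combination (-(p + r)) * h1 + (p + q + r + s) * h2

theorem exists_ab : ∃ a b : ℝ, a ^ 2 + 4 * a * b - b ^ 2 = 0 ∧
    3 * a ^ 2 + 2 * b ^ 2 + 2 * a * b = 1 := by
  have h5 : Real.sqrt 5 ^ 2 = 5 := Real.sq_sqrt (by norm_num)
  have hlt : Real.sqrt 5 < 5 / 2 := by
    rw [show (5 / 2 : ℝ) = Real.sqrt ((5 / 2) ^ 2) by rw [Real.sqrt_sq (by norm_num)]]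
    exact Real.sqrt_lt_sqrt (by norm_num) (by norm_num)
  have hpos : 0 < 5 * (5 - 2 * Real.sqrt 5) := by linarith
  set b : ℝ := Real.sqrt (1 / (5 * (5 - 2 * Real.sqrt 5))) with hb
  have hb2 : b ^ 2 = 1 / (5 * (5 - 2 * Real.sqrt 5)) := Real.sq_sqrt (by positivity)
  refine ⟨(Real.sqrt 5 - 2) * b, b, ?_, ?_⟩
  · linear_combination b ^ 2 * h5
  · have : b ^ 2 * (5 * (5 - 2 * Real.sqrt 5)) = 1 := by
      rw [hb2]; exact one_div_mul_cancel hpos.ne'
    linear_combination this + 3 * b ^ 2 * h5

theorem exists_complex : ∃ J : W →ₗ[ℝ] W, IsComplexStructure Gam J := by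
  obtain ⟨a, b, h1, h2⟩ := exists_ab
  refine ⟨circ a b, circ_sq h1 h2, ?_⟩
  rintro _ ⟨g, v, hv, rfl⟩ x
  rw [mov_linear]
  refine co_ext fun k i => ?_
  simp only [co_circ, co_rot]
  have e1 : i - 1 - chi k g = i - chi k g - 1 := by ring
  have e2 : i + 1 - chi k g = i - chi k g + 1 := by ring
  have e3 : i - 2 - chi k g = i - chi k g - 2 := by ring
  have e4 : i + 2 - chi k g = i - chi k g + 2 := by ring
  rw [e1, e2, e3, e4]

/-- the unit `T + T⁻¹` on the last copy -/
noncomputable def unitMap : W ≃ₗ[ℝ] W where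
  toFun x := mkW (fun k i => if k = 5 then co x k (i - 1) + co x k (i + 1) else co x k i)
    (fun k => by
      by_cases hk : k = 5
      · simp only [hk, if_true]
        rw [Finset.sum_add_distrib, sum_shift (fun i => co x 5 i), sum_shift' (fun i => co x 5 i),
          co_sum]
        ring
      · simp only [hk, if_false]; exact co_sum x k)
  map_add' x y := by
    apply co_ext; intro k i
    by_cases hk : k = 5
    · simp [hk]; ring
    · simp [hk]
  map_smul' c x := by
    apply co_ext; intro k i
    by_cases hk : k = 5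
    · simp [hk]; ring
    · simp [hk]
  invFun x := mkW (fun k i => if k = 5 then -(co x k (i - 2) + co x k (i + 2)) else co x k i)
    (fun k => by
      by_cases hk : k = 5
      · simp only [hk, if_true]
        rw [Finset.sum_neg_distrib, Finset.sum_add_distrib, sum_shift (fun i => co x 5 i),
          sum_shift' (fun i => co x 5 i), co_sum]
        ring
      · simp only [hk, if_false]; exact co_sum x k)
  left_inv x := by
    apply co_ext; intro k i
    by_cases hk : k = 5
    · simp only [co_mkW, hk, if_true]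
      have m3 : (3 : ZMod 5) = -2 := by decide
      have e1 : i - 2 - 1 = i + 2 := by linear_combination -m3
      have e2 : i - 2 + 1 = i - 1 := by ring
      have e3 : i + 2 - 1 = i + 1 := by ring
      have e4 : i + 2 + 1 = i - 2 := by linear_combination m3
      rw [e1, e2, e3, e4]
      have := sum_around x 5 i
      linarith
    · simp only [co_mkW, hk, if_false]
  right_inv x := by
    apply co_ext; intro k i
    by_cases hk : k = 5
    · simp only [co_mkW, hk, if_true]
      have m3 : (3 : ZMod 5) = -2 := by decide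
      have e1 : i - 1 - 2 = i + 2 := by linear_combination -m3
      have e2 : i - 1 + 2 = i + 1 := by ring
      have e3 : i + 1 - 2 = i - 1 := by ring
      have e4 : i + 1 + 2 = i - 2 := by linear_combination m3
      rw [e1, e2, e3, e4]
      have := sum_around x 5 i
      linarith
    · simp only [co_mkW, hk, if_false]

theorem co_unit (x : W) (k : Fin 6) (i : ZMod 5) :
    co (unitMap x) k i = if k = 5 then co x k (i - 1) + co x k (i + 1) else co x k i := rfl

theorem co_unit_symm (x : W) (k : Fin 6) (i : ZMod 5) :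
    co (unitMap.symm x) k i = if k = 5 then -(co x k (i - 2) + co x k (i + 2)) else co x k i := rfl

theorem unit_rot (g : G5) (x : W) : unitMap (rot g x) = rot g (unitMap x) := by
  refine co_ext fun k i => ?_
  simp only [co_unit, co_rot]
  have e1 : i - 1 - chi k g = i - chi k g - 1 := by ring
  have e2 : i + 1 - chi k g = i - chi k g + 1 := by ring
  rw [e1, e2]

theorem unit_cond {c : ZMod 5} {g : G5} {v : W} (hv : Cond c g v) : Cond (2 * c) g (unitMap v) := by
  intro k i
  by_cases hk : k = 5
  · obtain ⟨z, h1, h2⟩ := hv k (i - 1)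
    obtain ⟨z', h1', h2'⟩ := hv k (i + 1)
    refine ⟨z + z', ?_, ?_⟩
    · rw [co_unit, if_pos hk, mul_add, h1, h1', Int.cast_add]
    · rw [Int.cast_add, h2, h2', if_pos hk, if_pos hk]; ring
  · obtain ⟨z, h1, h2⟩ := hv k i
    refine ⟨z, ?_, ?_⟩
    · rw [co_unit, if_neg hk, h1]
    · rw [h2, if_neg hk, if_neg hk]

theorem unit_symm_cond {c : ZMod 5} {g : G5} {v : W} (hv : Cond c g v) :
    Cond (3 * c) g (unitMap.symm v) := by
  intro k i
  by_cases hk : k = 5
  · obtain ⟨z, h1, h2⟩ := hv k (i - 2)
    obtain ⟨z', h1', h2'⟩ := hv k (i + 2)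
    refine ⟨-(z + z'), ?_, ?_⟩
    · rw [co_unit_symm, if_pos hk, mul_neg, mul_add, h1, h1']; push_cast; ring
    · have m3 : (3 : ZMod 5) = -2 := by decide
      rw [Int.cast_neg, Int.cast_add, h2, h2', if_pos hk, if_pos hk, m3]; ring
  · obtain ⟨z, h1, h2⟩ := hv k i
    refine ⟨z, ?_, ?_⟩
    · rw [co_unit_symm, if_neg hk, h1]
    · rw [h2, if_neg hk, if_neg hk]

/-- the fourth power of the unit -/
noncomputable def U : W ≃ₗ[ℝ] W := ((unitMap.trans unitMap).trans unitMap).trans unitMap

theorem U_apply (x : W) : U x = unitMap (unitMap (unitMap (unitMap x))) := rfl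

theorem U_symm_apply (x : W) :
    U.symm x = unitMap.symm (unitMap.symm (unitMap.symm (unitMap.symm x))) := rfl

theorem U_rot (g : G5) (x : W) : U (rot g x) = rot g (U x) := by
  simp only [U_apply, unit_rot]

theorem U_symm_rot (g : G5) (x : W) : U.symm (rot g x) = rot g (U.symm x) := by
  rw [LinearEquiv.symm_apply_eq, U_rot, LinearEquiv.apply_symm_apply]

theorem U_cond {g : G5} {v : W} (hv : Cond 1 g v) : Cond 1 g (U v) := by
  have h := unit_cond (unit_cond (unit_cond (unit_cond hv)))
  have e : (2 * (2 * (2 * (2 * 1))) : ZMod 5) = 1 := by decide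
  rw [e] at h
  exact h

theorem U_symm_cond {g : G5} {v : W} (hv : Cond 1 g v) : Cond 1 g (U.symm v) := by
  have h := unit_symm_cond (unit_symm_cond (unit_symm_cond (unit_symm_cond hv)))
  have e : (3 * (3 * (3 * (3 * 1))) : ZMod 5) = 1 := by decide
  rw [e] at h
  exact h

theorem J_rot {J : W →ₗ[ℝ] W} (hJ : IsComplexStructure Gam J) (g : G5) (x : W) :
    J (rot g x) = rot g (J x) := by
  obtain ⟨v, hv⟩ := exists_cond g
  have := hJ.2 (mov g v) ⟨g, v, hv, rfl⟩ x
  rw [mov_linear] at this
  exact this

/-- the unit lies in the real group algebra -/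
theorem unit_formula (x : W) : unitMap x = x + (1 / 5 : ℝ) • ∑ j : ZMod 5,
    rot (0, j) (rot (1, 0) x + rot (-1, 0) x - x) := by
  refine co_ext fun k i => ?_
  rw [co_unit, co_add, co_smul, co_finset_sum]
  by_cases hk : k = 5
  · subst hk
    have h0 : ∀ j : ZMod 5, chi 5 (0, j) = 0 := by decide
    have h1 : chi 5 (1, 0) = 1 := by decide
    have h2 : chi 5 (-1, 0) = -1 := by decide
    simp only [if_true, co_rot, co_sub, co_add, h0, h1, h2, sub_zero, Finset.sum_const,
      Finset.card_univ, ZMod.card, nsmul_eq_mul, sub_neg_eq_add]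
    push_cast
    ring
  · have h0 : ∀ j : ZMod 5, chi k (0, j) = j := by
      intro j; simp [chi, hk]
    simp only [if_neg hk, co_rot, h0]
    rw [sum_neg_shift (fun j => co (rot (1, 0) x + rot (-1, 0) x - x) k j), co_sum]
    ring

theorem J_unit {J : W →ₗ[ℝ] W} (hJ : IsComplexStructure Gam J) (x : W) :
    J (unitMap x) = unitMap (J x) := by
  rw [unit_formula, unit_formula, map_add, map_smul, map_sum]
  simp only [J_rot hJ, map_add, map_sub]

theorem J_U {J : W →ₗ[ℝ] W} (hJ : IsComplexStructure Gam J) (x : W) :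
    J (U x) = U (J x) := by
  simp only [U_apply, J_unit hJ]

end Pool.Agent.R877.Flat
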