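import Mathlib

set_option autoImplicit false

/-!
# Flat manifolds and their complex structures

`E` is a Euclidean space (finite-dimensional real inner product space), `E ≃ᵃⁱ[ℝ] E` is its group of
isometries, with elements `x ↦ A x + a`, `A` orthogonal.
-/

namespace Pool.Agent.R877.Flat

variable {E : Type*} [NormedAddCommGroup E] [InnerProductSpace ℝ E]

/-- `Γ` is a Bieberbach group: a discrete, cocompact, torsion-free group of isometries of the
Euclidean space `E`. -/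
structure IsBieberbach (Γ : Subgroup (E ≃ᵃⁱ[ℝ] E)) : Prop where
  /-- discreteness: only finitely many elements move a compact set `K` to a set meeting `K` -/
  discrete : ∀ K : Set E, IsCompact K →
    {γ : E ≃ᵃⁱ[ℝ] E | γ ∈ Γ ∧ (γ '' K ∩ K).Nonempty}.Finite
  /-- cocompactness: the translates of some compact set cover `E` -/
  cocompact : ∃ K : Set E, IsCompact K ∧ ∀ x : E, ∃ γ ∈ Γ, γ x ∈ K
  /-- there are no non-trivial elements of finite order -/
  torsionFree : ∀ γ ∈ Γ, ∀ k : ℕ, 0 < k → γ ^ k = 1 → γ = 1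

/-- two points are equivalent if an element of `Γ` maps one to the other -/
def orbitRel (Γ : Subgroup (E ≃ᵃⁱ[ℝ] E)) : Setoid E where
  r x y := ∃ γ ∈ Γ, γ x = y
  iseqv :=
    { refl := fun x => ⟨1, Γ.one_mem, rfl⟩
      symm := by
        rintro x y ⟨γ, hγ, rfl⟩
        exact ⟨γ⁻¹, Γ.inv_mem hγ, γ.symm_apply_apply x⟩
      trans := by
        rintro x y z ⟨γ, hγ, rfl⟩ ⟨δ, hδ, rfl⟩
        exact ⟨δ * γ, Γ.mul_mem hδ hγ, rfl⟩ }

/-- the flat manifold `M = E / Γ`, with the quotient topology -/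
abbrev FlatManifold (Γ : Subgroup (E ≃ᵃⁱ[ℝ] E)) : Type _ := Quotient (orbitRel Γ)

/-- the projection `E → M` -/
def proj (Γ : Subgroup (E ≃ᵃⁱ[ℝ] E)) (x : E) : FlatManifold Γ := Quotient.mk (orbitRel Γ) x

/-- `b₁(M) = 0`: as `π₁(M) = Γ`, this says that `H¹(M; ℝ) = Hom(Γ, ℝ)` is zero -/
def FirstBettiZero (Γ : Subgroup (E ≃ᵃⁱ[ℝ] E)) : Prop :=
  ∀ φ : Γ →* Multiplicative ℝ, φ = 1

/-- `J` is a complex structure on `M = E / Γ`: `J² = -1`, and `J` commutes with the linear part of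
every element of `Γ` (that is, with the holonomy group) -/
def IsComplexStructure (Γ : Subgroup (E ≃ᵃⁱ[ℝ] E)) (J : E →ₗ[ℝ] E) : Prop :=
  (∀ x, J (J x) = -x) ∧ ∀ γ ∈ Γ, ∀ v, J (γ.linearIsometryEquiv v) = γ.linearIsometryEquiv (J v)

/-- `Aut(M, J)`: the self-homeomorphisms `f` of `M` having a lift `g` to `E` that is an affine
bijection whose linear part commutes with `J` -/
def AutMJ (Γ : Subgroup (E ≃ᵃⁱ[ℝ] E)) (J : E →ₗ[ℝ] E) : Set (FlatManifold Γ ≃ₜ FlatManifold Γ) :=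
  {f | ∃ g : E ≃ᵃ[ℝ] E, (∀ x, f (proj Γ x) = proj Γ (g x)) ∧
    ∀ v, g.linear (J v) = J (g.linear v)}

end Pool.Agent.R877.Flat
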