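import Pool.Agent.R877.Flat.Model

set_option autoImplicit false

open scoped BigOperators

namespace Pool.Agent.R877.Flat

/-- the six sums of coordinates -/
noncomputable def sums : EuclideanSpace ℝ Ix →ₗ[ℝ] (Fin 6 → ℝ) where
  toFun x k := ∑ i : ZMod 5, x (k, i)
  map_add' x y := by ext k; simp [Finset.sum_add_distrib]
  map_smul' c x := by ext k; simp [Finset.mul_sum]

theorem finrank_W : Module.finrank ℝ W = 24 := by
  have h1 : LinearMap.ker sums = W := by
    ext x
    rw [LinearMap.mem_ker, funext_iff]
    rfl
  have h2 : LinearMap.range sums = ⊤ := by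
    rw [LinearMap.range_eq_top]
    intro y
    refine ⟨WithLp.toLp 2 (fun p : Ix => if p.2 = 0 then y p.1 else 0), ?_⟩
    ext k
    simp [sums]
  have h3 := LinearMap.finrank_range_add_finrank_ker sums
  rw [h1, h2, finrank_top, finrank_euclideanSpace, Module.finrank_fintype_fun_eq_card] at h3
  simp only [Fintype.card_fin, Fintype.card_prod, ZMod.card] at h3
  omega

end Pool.Agent.R877.Flat
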