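import Pool.Agent.R877.Flat.Defs

set_option autoImplicit false

open scoped BigOperators

namespace Pool.Agent.R877.Flat

/-- coordinates: six copies of the cyclic group of order five -/
abbrev Ix : Type := Fin 6 × ZMod 5

/-- the group `(ℤ/5)²` -/
abbrev G5 : Type := ZMod 5 × ZMod 5

/-- six characters of `(ℤ/5)²`, with the six different kernels -/
def chi (k : Fin 6) (g : G5) : ZMod 5 := if k = 5 then g.1 else g.2 + (k.val : ZMod 5) * g.1

/-- a second character, non-zero on the kernel of `chi k` -/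
def psi (k : Fin 6) (g : G5) : ZMod 5 := if k = 5 then g.2 else g.1

theorem chi_add (k : Fin 6) (g h : G5) : chi k (g + h) = chi k g + chi k h := by
  unfold chi; split_ifs <;> simp <;> ring

theorem psi_add (k : Fin 6) (g h : G5) : psi k (g + h) = psi k g + psi k h := by
  unfold psi; split_ifs <;> simp

theorem chi_zero (k : Fin 6) : chi k 0 = 0 := by
  unfold chi; split_ifs <;> simp

theorem psi_zero (k : Fin 6) : psi k 0 = 0 := by
  unfold psi; split_ifs <;> simp

theorem chi_neg (k : Fin 6) (g : G5) : chi k (-g) = - chi k g := by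
  unfold chi; split_ifs
  · simp
  · simp; ring

theorem psi_neg (k : Fin 6) (g : G5) : psi k (-g) = - psi k g := by
  unfold psi; split_ifs <;> simp

theorem exists_fixed (g : G5) (hg : g ≠ 0) : ∃ k : Fin 6, chi k g = 0 ∧ psi k g ≠ 0 := by
  revert g; decide

/-- the space of functions on `Ix` with sum zero on each of the six copies -/
noncomputable def W : Submodule ℝ (EuclideanSpace ℝ Ix) where
  carrier := {x | ∀ k : Fin 6, ∑ i : ZMod 5, x (k, i) = 0}
  add_mem' := by
    intro x y hx hy k
    simp only [PiLp.add_apply, Finset.sum_add_distrib, hx k, hy k, add_zero]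
  zero_mem' := by intro k; simp
  smul_mem' := by
    intro c x hx k
    simp only [PiLp.smul_apply, smul_eq_mul, ← Finset.mul_sum, hx k, mul_zero]

/-- the coordinates of an element of `W` -/
noncomputable def co (x : W) (k : Fin 6) (i : ZMod 5) : ℝ := (x : EuclideanSpace ℝ Ix) (k, i)

theorem co_sum (x : W) (k : Fin 6) : ∑ i : ZMod 5, co x k i = 0 := x.2 k

@[simp] theorem co_add (x y : W) (k : Fin 6) (i : ZMod 5) : co (x + y) k i = co x k i + co y k i :=
  rfl

@[simp] theorem co_sub (x y : W) (k : Fin 6) (i : ZMod 5) : co (x - y) k i = co x k i - co y k i :=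
  rfl

@[simp] theorem co_neg (x : W) (k : Fin 6) (i : ZMod 5) : co (-x) k i = - co x k i := rfl

@[simp] theorem co_smul (c : ℝ) (x : W) (k : Fin 6) (i : ZMod 5) :
    co (c • x) k i = c * co x k i := rfl

@[simp] theorem co_zero (k : Fin 6) (i : ZMod 5) : co 0 k i = 0 := rfl

theorem co_finset_sum {ι : Type*} (s : Finset ι) (f : ι → W) (k : Fin 6) (i : ZMod 5) :
    co (∑ j ∈ s, f j) k i = ∑ j ∈ s, co (f j) k i := by
  classical
  induction s using Finset.induction_on with
  | empty => simp
  | insert a s ha ih => rw [Finset.sum_insert ha, Finset.sum_insert ha, co_add, ih]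

theorem co_ext {x y : W} (h : ∀ k i, co x k i = co y k i) : x = y := by
  apply Subtype.ext
  ext ⟨k, i⟩
  exact h k i

/-- build an element of `W` from coordinates -/
noncomputable def mkW (f : Fin 6 → ZMod 5 → ℝ) (hf : ∀ k, ∑ i, f k i = 0) : W :=
  ⟨WithLp.toLp 2 (fun p => f p.1 p.2), fun k => hf k⟩

@[simp] theorem co_mkW (f : Fin 6 → ZMod 5 → ℝ) (hf : ∀ k, ∑ i, f k i = 0) (k : Fin 6)
    (i : ZMod 5) : co (mkW f hf) k i = f k i := rfl

theorem sum_shift (f : ZMod 5 → ℝ) (c : ZMod 5) : ∑ i, f (i - c) = ∑ i, f i :=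
  (Equiv.subRight c).sum_comp f

theorem sum_shift' (f : ZMod 5 → ℝ) (c : ZMod 5) : ∑ i, f (i + c) = ∑ i, f i :=
  Equiv.sum_comp (Equiv.addRight c) f

theorem sum_neg_shift (f : ZMod 5 → ℝ) (c : ZMod 5) : ∑ i, f (c - i) = ∑ i, f i :=
  (Equiv.subLeft c).sum_comp f

theorem norm_sq_eq (x : W) : ‖x‖ ^ 2 = ∑ k : Fin 6, ∑ i : ZMod 5, co x k i ^ 2 := by
  have : ‖x‖ = ‖(x : EuclideanSpace ℝ Ix)‖ := rfl
  rw [this, EuclideanSpace.norm_eq, Real.sq_sqrt (by positivity), Fintype.sum_prod_type]
  simp [co]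

theorem abs_co_le (x : W) (k : Fin 6) (i : ZMod 5) : |co x k i| ≤ ‖x‖ :=
  PiLp.norm_apply_le (x : EuclideanSpace ℝ Ix) (k, i)

/-- the rotation by `g`: a shift by `chi k g` in the `k`-th copy -/
noncomputable def rot (g : G5) : W ≃ₗᵢ[ℝ] W where
  toFun x := mkW (fun k i => co x k (i - chi k g)) (fun k => by
    rw [sum_shift (fun i => co x k i)]; exact co_sum x k)
  map_add' x y := by apply co_ext; intro k i; simp
  map_smul' c x := by apply co_ext; intro k i; simp
  invFun x := mkW (fun k i => co x k (i + chi k g)) (fun k => by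
    rw [sum_shift' (fun i => co x k i)]; exact co_sum x k)
  left_inv x := by apply co_ext; intro k i; simp
  right_inv x := by apply co_ext; intro k i; simp
  norm_map' x := by
    have h : ‖mkW (fun k i => co x k (i - chi k g)) (fun k => by
      rw [sum_shift (fun i => co x k i)]; exact co_sum x k)‖ ^ 2 = ‖x‖ ^ 2 := by
      rw [norm_sq_eq, norm_sq_eq]
      refine Finset.sum_congr rfl fun k _ => ?_
      exact sum_shift (fun i => co x k i ^ 2) (chi k g)
    have := (sq_eq_sq₀ (norm_nonneg _) (norm_nonneg _)).1 h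
    exact this

@[simp] theorem co_rot (g : G5) (x : W) (k : Fin 6) (i : ZMod 5) :
    co (rot g x) k i = co x k (i - chi k g) := rfl

theorem rot_add (g h : G5) (x : W) : rot (g + h) x = rot g (rot h x) := by
  apply co_ext; intro k i
  simp only [co_rot, chi_add]
  congr 1; ring

theorem rot_zero (x : W) : rot 0 x = x := by
  apply co_ext; intro k i
  simp [chi_zero]

/-- the isometry `x ↦ rot g x + v` -/
noncomputable def mov (g : G5) (v : W) : W ≃ᵃⁱ[ℝ] W :=
  (rot g).toAffineIsometryEquiv.trans (AffineIsometryEquiv.constVAdd ℝ W v)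

@[simp] theorem mov_apply (g : G5) (v x : W) : mov g v x = v + rot g x := rfl

theorem mov_linear (g : G5) (v : W) : (mov g v).linearIsometryEquiv = rot g := by
  ext x
  have h : (mov g v).linearIsometryEquiv (x -ᵥ 0) = mov g v x -ᵥ mov g v 0 :=
    ((mov g v).toAffineEquiv.toAffineMap.linearMap_vsub x 0)
  simp only [vsub_eq_sub, sub_zero, mov_apply, map_zero, add_zero, add_sub_cancel_left] at h
  rw [h]

/-- the condition on the translation part: `5 v` has integer coordinates, congruent to
`c * psi k g` modulo `5` in the last copy and to `psi k g` in the other ones -/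
def Cond (c : ZMod 5) (g : G5) (v : W) : Prop :=
  ∀ k i, ∃ z : ℤ, 5 * co v k i = z ∧ (z : ZMod 5) = (if k = 5 then c else 1) * psi k g

theorem Cond.zero (c : ZMod 5) : Cond c 0 0 := by
  intro k i
  exact ⟨0, by simp, by simp [psi_zero]⟩

theorem Cond.add_rot {c : ZMod 5} {g h : G5} {v w : W} (hv : Cond c g v) (hw : Cond c h w) :
    Cond c (g + h) (v + rot g w) := by
  intro k i
  obtain ⟨z, h1, h2⟩ := hv k i
  obtain ⟨z', h1', h2'⟩ := hw k (i - chi k g)
  refine ⟨z + z', ?_, ?_⟩
  · simp only [co_add, co_rot, mul_add, h1, h1', Int.cast_add]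
  · rw [Int.cast_add, h2, h2', psi_add]; ring

theorem Cond.neg_rot {c : ZMod 5} {g : G5} {v : W} (hv : Cond c g v) :
    Cond c (-g) (-(rot (-g) v)) := by
  intro k i
  obtain ⟨z, h1, h2⟩ := hv k (i - chi k (-g))
  refine ⟨-z, ?_, ?_⟩
  · simp only [co_neg, co_rot, mul_neg, h1, Int.cast_neg]
  · rw [Int.cast_neg, h2, psi_neg]; ring

/-- the group `Γ` -/
noncomputable def Gam : Subgroup (W ≃ᵃⁱ[ℝ] W) where
  carrier := {γ | ∃ g v, Cond 1 g v ∧ γ = mov g v}
  mul_mem' := by
    rintro _ _ ⟨g, v, hv, rfl⟩ ⟨h, w, hw, rfl⟩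
    refine ⟨g + h, v + rot g w, hv.add_rot hw, ?_⟩
    ext1 x
    change v + rot g (w + rot h x) = v + rot g w + rot (g + h) x
    rw [map_add, rot_add, add_assoc]
  one_mem' := by
    refine ⟨0, 0, Cond.zero 1, ?_⟩
    ext1 x
    change x = 0 + rot 0 x
    rw [rot_zero, zero_add]
  inv_mem' := by
    rintro _ ⟨g, v, hv, rfl⟩
    refine ⟨-g, -(rot (-g) v), hv.neg_rot, ?_⟩
    rw [inv_eq_iff_mul_eq_one]
    ext1 x
    change v + rot g (-(rot (-g) v) + rot (-g) x) = x
    rw [map_add, map_neg, ← rot_add, ← rot_add]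
    simp [rot_zero]

theorem mem_Gam {γ : W ≃ᵃⁱ[ℝ] W} : γ ∈ Gam ↔ ∃ g v, Cond 1 g v ∧ γ = mov g v := Iff.rfl

theorem mov_mul (g h : G5) (v w : W) : mov g v * mov h w = mov (g + h) (v + rot g w) := by
  ext1 x
  change v + rot g (w + rot h x) = v + rot g w + rot (g + h) x
  rw [map_add, rot_add, add_assoc]

theorem sum_five (f : ZMod 5 → ℝ) : ∑ i, f i = f 0 + f 1 + f 2 + f 3 + f 4 := by
  have : (Finset.univ : Finset (ZMod 5)) = {0, 1, 2, 3, 4} := by decide
  rw [this]
  rw [Finset.sum_insert (by decide), Finset.sum_insert (by decide), Finset.sum_insert (by decide),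
    Finset.sum_insert (by decide), Finset.sum_singleton]
  ring

/-- for each `g` there is an element of `Γ` with rotation part `g` -/
theorem exists_cond (g : G5) : ∃ v, Cond 1 g v := by
  refine ⟨mkW (fun k i => (psi k g).val / 5 - if i = 0 then ((psi k g).val : ℝ) else 0) ?_, ?_⟩
  · intro k
    rw [sum_five]
    have h1 : ¬ (1 : ZMod 5) = 0 := by decide
    have h2 : ¬ (2 : ZMod 5) = 0 := by decide
    have h3 : ¬ (3 : ZMod 5) = 0 := by decide
    have h4 : ¬ (4 : ZMod 5) = 0 := by decide
    simp only [h1, h2, h3, h4, if_true, if_false]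
    ring
  · intro k i
    have h5 : (5 : ZMod 5) = 0 := by decide
    by_cases hi : i = 0
    · refine ⟨(psi k g).val - 5 * (psi k g).val, ?_, ?_⟩
      · simp only [co_mkW, hi, if_true]
        push_cast
        ring
      · push_cast
        rw [h5]
        simp
    · refine ⟨(psi k g).val, ?_, ?_⟩
      · simp only [co_mkW, hi, if_false]
        push_cast
        ring
      · push_cast
        simp

end Pool.Agent.R877.Flat
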