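import Pool.Agent.R877.Flat.Defs

set_option autoImplicit false

namespace Pool.Agent.R877.Flat

variable {E F : Type*} [NormedAddCommGroup E] [InnerProductSpace ℝ E]
  [NormedAddCommGroup F] [InnerProductSpace ℝ F]

/-- conjugation of isometries by a linear isometry -/
noncomputable def conj (e : E ≃ₗᵢ[ℝ] F) : (E ≃ᵃⁱ[ℝ] E) →* (F ≃ᵃⁱ[ℝ] F) where
  toFun γ := (e.symm.toAffineIsometryEquiv.trans γ).trans e.toAffineIsometryEquiv
  map_one' := by
    ext1 x
    change e (e.symm x) = x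
    exact e.apply_symm_apply x
  map_mul' γ δ := by
    ext1 x
    change e (γ (δ (e.symm x))) = e (γ (e.symm (e (δ (e.symm x)))))
    rw [e.symm_apply_apply]

theorem conj_apply (e : E ≃ₗᵢ[ℝ] F) (γ : E ≃ᵃⁱ[ℝ] E) (x : F) : conj e γ x = e (γ (e.symm x)) := rfl

theorem conj_injective (e : E ≃ₗᵢ[ℝ] F) : Function.Injective (conj e) := by
  intro γ δ h
  ext1 x
  have := DFunLike.congr_fun h (e x)
  rw [conj_apply, conj_apply, e.symm_apply_apply] at this
  exact e.injective this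

theorem lin_eq (γ : E ≃ᵃⁱ[ℝ] E) (v : E) : γ.linearIsometryEquiv v = γ v - γ 0 := by
  have h : γ.linearIsometryEquiv (v -ᵥ 0) = γ v -ᵥ γ 0 :=
    (γ.toAffineEquiv.toAffineMap.linearMap_vsub v 0)
  simpa using h

theorem conj_linear (e : E ≃ₗᵢ[ℝ] F) (γ : E ≃ᵃⁱ[ℝ] E) (v : F) :
    (conj e γ).linearIsometryEquiv v = e (γ.linearIsometryEquiv (e.symm v)) := by
  rw [lin_eq, lin_eq, conj_apply, conj_apply, map_sub, map_zero]

variable (e : E ≃ₗᵢ[ℝ] F) (Γ : Subgroup (E ≃ᵃⁱ[ℝ] E))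

theorem IsBieberbach.map {Γ : Subgroup (E ≃ᵃⁱ[ℝ] E)} (h : IsBieberbach Γ) :
    IsBieberbach (Γ.map (conj e)) where
  discrete K hK := by
    have hK' : IsCompact (e.symm '' K) := hK.image e.symm.continuous
    refine ((h.discrete _ hK').image (conj e)).subset ?_
    rintro _ ⟨⟨γ, hγ, rfl⟩, y, ⟨x, hx, rfl⟩, hy⟩
    refine ⟨γ, ⟨hγ, γ (e.symm x), ⟨e.symm x, ⟨x, hx, rfl⟩, rfl⟩, ⟨conj e γ x, hy, ?_⟩⟩, rfl⟩
    rw [conj_apply, e.symm_apply_apply]
  cocompact := by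
    obtain ⟨K, hK, hx⟩ := h.cocompact
    refine ⟨e '' K, hK.image e.continuous, fun x => ?_⟩
    obtain ⟨γ, hγ, h'⟩ := hx (e.symm x)
    exact ⟨conj e γ, ⟨γ, hγ, rfl⟩, ⟨_, h', rfl⟩⟩
  torsionFree := by
    rintro _ ⟨γ, hγ, rfl⟩ k hk hpow
    rw [← map_pow] at hpow
    have h1 : γ ^ k = 1 := conj_injective e (by rw [hpow, map_one])
    rw [h.torsionFree γ hγ k hk h1, map_one]

theorem FirstBettiZero.map {Γ : Subgroup (E ≃ᵃⁱ[ℝ] E)} (h : FirstBettiZero Γ) :
    FirstBettiZero (Γ.map (conj e)) := by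
  intro φ
  have h1 := h (φ.comp ((conj e).subgroupMap Γ))
  ext ⟨_, γ, hγ, rfl⟩
  have h2 := DFunLike.congr_fun h1 ⟨γ, hγ⟩
  exact h2

theorem IsComplexStructure.map {Γ : Subgroup (E ≃ᵃⁱ[ℝ] E)} {J : E →ₗ[ℝ] E}
    (h : IsComplexStructure Γ J) : IsComplexStructure (Γ.map (conj e))
      ((e.toLinearEquiv : E →ₗ[ℝ] F) ∘ₗ J ∘ₗ (e.symm.toLinearEquiv : F →ₗ[ℝ] E)) := by
  refine ⟨fun x => ?_, ?_⟩
  · change e (J (e.symm (e (J (e.symm x))))) = -x
    rw [e.symm_apply_apply, h.1, map_neg, e.apply_symm_apply]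
  · rintro _ ⟨γ, hγ, rfl⟩ v
    rw [conj_linear, conj_linear]
    change e (J (e.symm (e (γ.linearIsometryEquiv (e.symm v))))) =
      e (γ.linearIsometryEquiv (e.symm (e (J (e.symm v)))))
    rw [e.symm_apply_apply, e.symm_apply_apply, h.2 γ hγ]

theorem IsComplexStructure.comap {Γ : Subgroup (E ≃ᵃⁱ[ℝ] E)} {J : F →ₗ[ℝ] F}
    (h : IsComplexStructure (Γ.map (conj e)) J) : IsComplexStructure Γ
      ((e.symm.toLinearEquiv : F →ₗ[ℝ] E) ∘ₗ J ∘ₗ (e.toLinearEquiv : E →ₗ[ℝ] F)) := by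
  refine ⟨fun x => ?_, ?_⟩
  · change e.symm (J (e (e.symm (J (e x))))) = -x
    rw [e.apply_symm_apply, h.1, map_neg, e.symm_apply_apply]
  · intro γ hγ v
    have h1 := h.2 (conj e γ) ⟨γ, hγ, rfl⟩ (e v)
    rw [conj_linear, conj_linear, e.symm_apply_apply] at h1
    change e.symm (J (e (γ.linearIsometryEquiv v))) = γ.linearIsometryEquiv (e.symm (J (e v)))
    rw [h1, e.symm_apply_apply]

/-- the homeomorphism of quotients -/
noncomputable def quo : FlatManifold Γ ≃ₜ FlatManifold (Γ.map (conj e)) where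
  toFun := Quotient.map e (by
    rintro x y ⟨γ, hγ, rfl⟩
    exact ⟨conj e γ, ⟨γ, hγ, rfl⟩, by rw [conj_apply, e.symm_apply_apply]⟩)
  invFun := Quotient.map e.symm (by
    rintro x y ⟨_, ⟨γ, hγ, rfl⟩, rfl⟩
    exact ⟨γ, hγ, by rw [conj_apply, e.symm_apply_apply]⟩)
  left_inv := by
    rintro ⟨x⟩
    change Quotient.mk (orbitRel Γ) (e.symm (e x)) = _
    rw [e.symm_apply_apply]; rfl
  right_inv := by
    rintro ⟨x⟩
    change Quotient.mk (orbitRel (Γ.map (conj e))) (e (e.symm x)) = _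
    rw [e.apply_symm_apply]; rfl
  continuous_toFun := continuous_quot_lift _ (continuous_quot_mk.comp e.continuous)
  continuous_invFun := continuous_quot_lift _ (continuous_quot_mk.comp e.symm.continuous)

theorem quo_proj (x : E) : quo e Γ (proj Γ x) = proj (Γ.map (conj e)) (e x) := rfl

theorem quo_symm_proj (x : F) : (quo e Γ).symm (proj (Γ.map (conj e)) x) = proj Γ (e.symm x) := rfl

theorem aut_transport {J : F →ₗ[ℝ] F}
    (h : (AutMJ Γ ((e.symm.toLinearEquiv : F →ₗ[ℝ] E) ∘ₗ J ∘ₗ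
      (e.toLinearEquiv : E →ₗ[ℝ] F))).Infinite) : (AutMJ (Γ.map (conj e)) J).Infinite := by
  have hinj : Function.Injective (fun f : FlatManifold Γ ≃ₜ FlatManifold Γ =>
      ((quo e Γ).symm.trans f).trans (quo e Γ)) := by
    intro f g hfg
    ext1 x
    have := DFunLike.congr_fun hfg (quo e Γ x)
    simp only [Homeomorph.trans_apply, Homeomorph.symm_apply_apply] at this
    exact (quo e Γ).injective this
  refine (h.image hinj.injOn).mono ?_
  rintro _ ⟨f, ⟨g, hg, hJ⟩, rfl⟩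
  refine ⟨(e.symm.toLinearEquiv.toAffineEquiv.trans g).trans e.toLinearEquiv.toAffineEquiv,
    fun x => ?_, fun v => ?_⟩
  · change quo e Γ (f ((quo e Γ).symm (proj (Γ.map (conj e)) x))) = _
    rw [quo_symm_proj, hg, quo_proj]
    rfl
  · have h1 := hJ (e.symm v)
    change g.linear (e.symm (J (e (e.symm v)))) = e.symm (J (e (g.linear (e.symm v)))) at h1
    change e (g.linear (e.symm (J v))) = J (e (g.linear (e.symm v)))
    rw [e.apply_symm_apply] at h1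
    rw [h1, e.apply_symm_apply]

end Pool.Agent.R877.Flat
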